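import Pool.Agent.H19.UR.Itf

/-!
# An Auslander regular ring with involution has the properties of the surgery argument

MP_c13a79_gt, Theorem U, block (4): `good_of_aus : Aus R d → Good R`.

* `tr k X`: the complex `X` in degrees `≥ k`, shifted down by `k`; if `X` is exact above `k`, it is a
  resolution of `coker (X_{k+1} → X_k)`.
* `sh k X`: the shifted complex.
* for a perfect pairing of degree `m` of `X` and `Y`, the map `x ↦ x P` identifies `H_k(X)` with
  `H^{m-k}` of the dual of `Y`, that is, for `m - 2 k ≥ 1`, with `H^{m-2k}` of the dual of `tr k Y`.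
-/

set_option autoImplicit false

open Matrix Pool.Agent.H16.UN Pool.Agent.H19.UR

namespace Pool.Agent.H5.UR

namespace GO

section trunc

variable {R : Type} [Ring R]

theorem sum_sub {α M : Type} [Fintype α] [AddCommMonoid M] (p : α → Prop) [DecidablePred p]
    (f : α → M) (hf : ∀ a, f a ≠ 0 → p a) : ∑ a : {a // p a}, f a.1 = ∑ a, f a := by
  rw [← Finset.sum_filter_of_ne (s := Finset.univ) (p := p) fun a _ h => hf a h]
  exact (Finset.sum_subtype _ (fun a => by simp) f).symm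

theorem vm_ne {n k : Type} [Fintype n] {v : n → R} {M : Matrix n k R} {b : k}
    (h : (v ᵥ* M) b ≠ 0) : ∃ a, v a ≠ 0 ∧ M a b ≠ 0 := by
  have h1 : (v ᵥ* M) b = ∑ a, v a * M a b := rfl
  rw [h1] at h
  obtain ⟨a, -, ha⟩ := Finset.exists_ne_zero_of_sum_ne_zero h
  exact ⟨a, left_ne_zero_of_mul ha, right_ne_zero_of_mul ha⟩

theorem hom_add {X : FC R} {i : ℤ} {v w : X.ι → R} (hv : X.Hom i v)
    (hw : X.Hom i w) : X.Hom i (v + w) := by
  intro a ha
  by_cases h0 : v a = 0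
  · exact hw a (by intro h1; apply ha; simp [h0, h1])
  · exact hv a h0

theorem hom_neg {X : FC R} {i : ℤ} {v : X.ι → R} (hv : X.Hom i v) :
    X.Hom i (-v) := fun a ha => hv a (by intro h; apply ha; simp [h])

theorem hom_sub {X : FC R} {i : ℤ} {v w : X.ι → R} (hv : X.Hom i v)
    (hw : X.Hom i w) : X.Hom i (v - w) := by
  rw [sub_eq_add_neg]; exact hom_add hv (hom_neg hw)

theorem hom_D {X : FC R} {i : ℤ} {v : X.ι → R} (hv : X.Hom (i + 1) v) :
    X.Hom i (v ᵥ* X.D) := by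
  intro b hb
  obtain ⟨a, h1, h2⟩ := vm_ne hb
  have h3 := hv a h1
  have h4 := X.hdeg a b h2
  omega

theorem hom_map {X Y : FC R} {F : Matrix X.ι Y.ι R} (hF : HM X Y F) {i : ℤ}
    {v : X.ι → R} (hv : X.Hom i v) : Y.Hom i (v ᵥ* F) := by
  intro b hb
  obtain ⟨a, h1, h2⟩ := vm_ne hb
  rw [← hF a b h2]; exact hv a h1

/-- the complex in degrees `≥ k`, shifted down by `k` -/
@[reducible] def tr (k : ℤ) (X : FC R) : FC R where
  ι := {a : X.ι // k ≤ X.deg a}
  deg a := X.deg a.1 - k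
  D := X.D.submatrix Subtype.val Subtype.val
  hdeg a b h := by
    have := X.hdeg a.1 b.1 h
    omega
  hD := by
    ext a b
    have h1 : (X.D * X.D) a.1 b.1 = 0 := by rw [X.hD]; rfl
    rw [Matrix.mul_apply] at h1 ⊢
    rw [Matrix.zero_apply, ← h1]
    refine sum_sub (fun c => k ≤ X.deg c) (fun c => X.D a.1 c * X.D c b.1) fun c hc => ?_
    have h2 := X.hdeg c b.1 (right_ne_zero_of_mul hc)
    have h3 := b.2
    omega

/-- restriction to the degrees `≥ k` -/
def rs (k : ℤ) (X : FC R) : (X.ι → R) →ₗ[R] ((tr k X).ι → R) :=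
  LinearMap.funLeft R R Subtype.val

/-- extension by zero from the degrees `≥ k` -/
def ex (k : ℤ) (X : FC R) : ((tr k X).ι → R) →ₗ[R] (X.ι → R) where
  toFun v a := if h : k ≤ X.deg a then v ⟨a, h⟩ else 0
  map_add' v w := by
    funext a
    by_cases h : k ≤ X.deg a <;> simp [h]
  map_smul' r v := by
    funext a
    by_cases h : k ≤ X.deg a <;> simp [h]

theorem rs_apply {k : ℤ} {X : FC R} (v : X.ι → R) (a : (tr k X).ι) : rs k X v a = v a.1 := rfl

theorem ex_apply {k : ℤ} {X : FC R} (v : (tr k X).ι → R) (a : X.ι) :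
    ex k X v a = if h : k ≤ X.deg a then v ⟨a, h⟩ else 0 := rfl

theorem rs_ex {k : ℤ} {X : FC R} (v : (tr k X).ι → R) : rs k X (ex k X v) = v := by
  funext a
  rw [rs_apply, ex_apply, dif_pos a.2]

theorem ex_rs {k i : ℤ} {X : FC R} {v : X.ι → R} (hv : X.Hom i v) (hi : k ≤ i) :
    ex k X (rs k X v) = v := by
  funext a
  rw [ex_apply]
  by_cases h : k ≤ X.deg a
  · rw [dif_pos h, rs_apply]
  · rw [dif_neg h]
    by_contra h1
    have h2 := hv a (Ne.symm h1)
    omega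

theorem hom_rs {k i : ℤ} {X : FC R} {v : X.ι → R} (hv : X.Hom i v) :
    (tr k X).Hom (i - k) (rs k X v) := by
  intro a ha
  have h1 := hv a.1 ha
  show X.deg a.1 - k = i - k
  omega

theorem hom_ex {k i : ℤ} {X : FC R} {v : (tr k X).ι → R} (hv : (tr k X).Hom i v) :
    X.Hom (i + k) (ex k X v) := by
  intro a ha
  rw [ex_apply] at ha
  by_cases h : k ≤ X.deg a
  · rw [dif_pos h] at ha
    have h1 : X.deg a - k = i := hv ⟨a, h⟩ ha
    omega
  · rw [dif_neg h] at ha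
    exact absurd rfl ha

theorem rs_D {k : ℤ} {X : FC R} (v : X.ι → R) : rs k X (v ᵥ* X.D) = rs k X v ᵥ* (tr k X).D := by
  funext b
  rw [rs_apply]
  show ∑ a, v a * X.D a b.1 = ∑ a : {a : X.ι // k ≤ X.deg a}, v a.1 * X.D a.1 b.1
  refine (sum_sub (fun c => k ≤ X.deg c) (fun c => v c * X.D c b.1) fun c hc => ?_).symm
  have h2 := X.hdeg c b.1 (right_ne_zero_of_mul hc)
  have h3 := b.2
  omega

theorem ex_D {k i : ℤ} {X : FC R} {v : (tr k X).ι → R} (hv : (tr k X).Hom i v) (hi : 1 ≤ i) :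
    ex k X v ᵥ* X.D = ex k X (v ᵥ* (tr k X).D) := by
  have h1 : X.Hom (i - 1 + k) (ex k X v ᵥ* X.D) := by
    have h2 := hom_ex hv
    have h3 : i + k = (i - 1 + k) + 1 := by ring
    rw [h3] at h2
    exact hom_D h2
  rw [← ex_rs (k := k) h1 (by omega), rs_D, rs_ex]

theorem tr_ex {k : ℤ} {X : FC R} (h : ∀ i, k < i → X.Ex i) : ∀ i, 0 < i → (tr k X).Ex i := by
  intro i hi v hv
  have h1 := hom_ex hv.1
  have h2 : ex k X v ᵥ* X.D = 0 := by rw [ex_D hv.1 (by omega), hv.2, map_zero]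
  obtain ⟨w, hw, hwv⟩ := h (i + k) (by omega) _ ⟨h1, h2⟩
  refine ⟨rs k X w, ?_, ?_⟩
  · have h3 := hom_rs (k := k) hw
    have h4 : i + k + 1 - k = i + 1 := by ring
    rwa [h4] at h3
  · rw [← rs_D, hwv, rs_ex]

theorem tr_nonneg {k : ℤ} {X : FC R} (a : (tr k X).ι) : 0 ≤ (tr k X).deg a := by
  have := a.2
  show 0 ≤ X.deg a.1 - k
  omega

/-- the shifted complex -/
@[reducible] def sh (k : ℤ) (X : FC R) : FC R where
  ι := X.ι
  deg a := X.deg a + k
  D := X.D
  hdeg a b h := by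
    have := X.hdeg a b h
    omega
  hD := X.hD

theorem sh_hom {k i : ℤ} {X : FC R} {v : X.ι → R} : (sh k X).Hom i v ↔ X.Hom (i - k) v := by
  constructor
  · intro h a ha
    have h1 : X.deg a + k = i := h a ha
    omega
  · intro h a ha
    have h1 : X.deg a = i - k := h a ha
    show X.deg a + k = i
    omega

theorem sh_bd {k i : ℤ} {X : FC R} {v : X.ι → R} : (sh k X).Bd i v ↔ X.Bd (i - k) v := by
  have e : i + 1 - k = i - k + 1 := by ring
  constructor
  · rintro ⟨w, hw, h⟩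
    exact ⟨w, by rw [← e]; exact sh_hom.1 hw, h⟩
  · rintro ⟨w, hw, h⟩
    exact ⟨w, sh_hom.2 (by rw [e]; exact hw), h⟩

theorem sh_Ex {k i : ℤ} {X : FC R} : (sh k X).Ex i ↔ X.Ex (i - k) := by
  constructor
  · intro h v hv
    exact sh_bd.1 (h v ⟨sh_hom.2 hv.1, hv.2⟩)
  · intro h v hv
    exact sh_bd.2 (h v ⟨sh_hom.1 hv.1, hv.2⟩)

theorem sh_coex [StarRing R] {k i : ℤ} {X : FC R} : (sh k X).CoEx i ↔ X.CoEx (i - k) := by
  have e : i - 1 - k = i - k - 1 := by ring
  constructor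
  · intro h v hv h1
    obtain ⟨w, hw, hwv⟩ := h v (sh_hom.2 hv) h1
    exact ⟨w, by rw [← e]; exact sh_hom.1 hw, hwv⟩
  · intro h v hv h1
    obtain ⟨w, hw, hwv⟩ := h v (sh_hom.1 hv) h1
    exact ⟨w, sh_hom.2 (by rw [e]; exact hw), hwv⟩

end trunc

section star

variable {R : Type} [Ring R] [StarRing R]

theorem hom_Dh {X : FC R} {i : ℤ} {v : X.ι → R} (hv : X.Hom i v) :
    X.Hom (i + 1) (v ᵥ* X.Dᴴ) := by
  intro b hb
  obtain ⟨a, h1, h2⟩ := vm_ne hb
  have h3 := hv a h1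
  have h4 := X.hdeg b a (by intro h; apply h2; rw [conjTranspose_apply, h, star_zero])
  omega

theorem ex_Dh {k : ℤ} {X : FC R} (v : (tr k X).ι → R) :
    ex k X v ᵥ* X.Dᴴ = ex k X (v ᵥ* (tr k X).Dᴴ) := by
  have h0 : ∀ b, (ex k X v ᵥ* X.Dᴴ) b =
      ∑ a : {a : X.ι // k ≤ X.deg a}, v a * star (X.D b a.1) := by
    intro b
    have h1 : (ex k X v ᵥ* X.Dᴴ) b = ∑ a, ex k X v a * star (X.D b a) := rfl
    rw [h1, ← sum_sub (fun c => k ≤ X.deg c) (fun c => ex k X v c * star (X.D b c))]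
    · refine Finset.sum_congr rfl fun a _ => ?_
      rw [ex_apply, dif_pos a.2]
    · intro c hc
      by_contra h2
      apply left_ne_zero_of_mul hc
      rw [ex_apply, dif_neg h2]
  funext b
  rw [h0, ex_apply]
  by_cases h : k ≤ X.deg b
  · rw [dif_pos h]
    rfl
  · rw [dif_neg h]
    refine Finset.sum_eq_zero fun a _ => ?_
    by_cases h1 : X.D b a.1 = 0
    · rw [h1, star_zero, mul_zero]
    · have h2 := X.hdeg b a.1 h1
      have h3 := a.2
      omega

theorem rs_Dh {k i : ℤ} {X : FC R} {v : X.ι → R} (hv : X.Hom i v) (hi : k ≤ i) :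
    rs k X (v ᵥ* X.Dᴴ) = rs k X v ᵥ* (tr k X).Dᴴ := by
  rw [← ex_rs hv hi, ex_Dh, rs_ex, rs_ex]

variable {X Y : FC R} {m : ℤ} {P : Matrix X.ι Y.ι R} {P' : Matrix Y.ι X.ι R}

theorem hom_P (h : Pair X Y m P P') {k : ℤ} {x : X.ι → R} (hx : X.Hom k x) :
    Y.Hom (m - k) (x ᵥ* P) := by
  intro b hb
  obtain ⟨a, h1, h2⟩ := vm_ne hb
  have h3 := h.hom a b h2
  have h4 := hx a h1
  omega

theorem hom_P' (h : Pair X Y m P P') {k : ℤ} {y : Y.ι → R} (hy : Y.Hom k y) :
    X.Hom (m - k) (y ᵥ* P') := by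
  intro b hb
  obtain ⟨a, h1, h2⟩ := vm_ne hb
  have h3 := h.hom' a b h2
  have h4 := hy a h1
  omega

omit [StarRing R] in
theorem hom_eps {k : ℤ} {x : X.ι → R} (hx : X.Hom k x) : X.Hom k (x ᵥ* X.eps) :=
  hom_map (fun a b hab => by
    have : a = b := by
      by_contra h1
      exact hab (Matrix.diagonal_apply_ne _ h1)
    rw [this]) hx

theorem P_Dh (h : Pair X Y m P P') : P * Y.Dᴴ = X.D * (X.eps * P) := by
  have h1 : X.D * P + X.eps * P * Y.Dᴴ = 0 := h.closed
  have h2 : X.eps * (X.D * P + X.eps * P * Y.Dᴴ) = 0 := by rw [h1, Matrix.mul_zero]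
  rw [Matrix.mul_add, ← Matrix.mul_assoc, ← Matrix.mul_assoc, ← Matrix.mul_assoc, eps_mul_eps,
    Matrix.one_mul, eps_D, Matrix.neg_mul] at h2
  rw [← Matrix.mul_assoc]
  exact (eq_of_neg_add_eq_zero h2).symm

theorem cyc_P (h : Pair X Y m P P') {x : X.ι → R} (hx : x ᵥ* X.D = 0) :
    x ᵥ* P ᵥ* Y.Dᴴ = 0 := by
  rw [vecMul_vecMul, P_Dh h, ← vecMul_vecMul, hx, zero_vecMul]

theorem bd_P (h : Pair X Y m P P') {k : ℤ} {x : X.ι → R} (hx : X.Bd k x) :
    ∃ u, Y.Hom (m - k - 1) u ∧ u ᵥ* Y.Dᴴ = x ᵥ* P := by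
  obtain ⟨w, hw, rfl⟩ := hx
  refine ⟨-(w ᵥ* X.eps ᵥ* P), ?_, ?_⟩
  · have h1 := hom_neg (hom_P h (hom_eps hw))
    have h2 : m - (k + 1) = m - k - 1 := by ring
    rwa [h2] at h1
  · have h1 : X.D * P + X.eps * P * Y.Dᴴ = 0 := h.closed
    have h2 : X.D * P = -(X.eps * P * Y.Dᴴ) := eq_neg_of_add_eq_zero_left h1
    rw [neg_vecMul, vecMul_vecMul, vecMul_vecMul, vecMul_vecMul, h2, vecMul_neg, Matrix.mul_assoc]

theorem P_bd (h : Pair X Y m P P') {k : ℤ} {x : X.ι → R} {u : Y.ι → R} (hu : Y.Hom (m - k - 1) u)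
    (hux : u ᵥ* Y.Dᴴ = x ᵥ* P) : X.Bd k x := by
  refine ⟨-(u ᵥ* P' ᵥ* X.eps), ?_, ?_⟩
  · have h1 := hom_neg (hom_eps (hom_P' h hu))
    have h2 : m - (m - k - 1) = k + 1 := by ring
    rwa [h2] at h1
  · have h1 : Y.Dᴴ * P' = P' * (X.D * X.eps) := by
      calc Y.Dᴴ * P' = (P' * P) * (Y.Dᴴ * P') := by rw [h.mul', Matrix.one_mul]
        _ = P' * ((P * Y.Dᴴ) * P') := by simp only [Matrix.mul_assoc]
        _ = P' * ((X.D * (X.eps * P)) * P') := by rw [P_Dh h]
        _ = P' * (X.D * (X.eps * (P * P'))) := by simp only [Matrix.mul_assoc]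
        _ = _ := by rw [h.mul, Matrix.mul_one]
    have h2 : x = u ᵥ* (Y.Dᴴ * P') := by
      rw [← vecMul_vecMul, hux, vecMul_vecMul, h.mul, vecMul_one]
    rw [h2, h1, neg_vecMul, vecMul_vecMul, vecMul_vecMul, ← vecMul_neg]
    congr 1
    rw [eps_D, Matrix.mul_neg, neg_neg]

omit [StarRing R] in
/-- the identification of `H_k(X)` with the cohomology of the dual of the truncation of `Y` -/
def tau (Y : FC R) (P : Matrix X.ι Y.ι R) (k : ℤ) : (X.ι → R) →ₗ[R] ((tr k Y).ι → R) :=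
  (rs k Y).comp (P.vecMulLinear)

omit [StarRing R] in
theorem tau_apply (k : ℤ) (x : X.ι → R) : tau Y P k x = rs k Y (x ᵥ* P) := rfl

theorem tau_Zc (h : Pair X Y m P P') {k : ℤ} (hk : 1 ≤ m - 2 * k) {x : X.ι → R}
    (hx : X.Cyc k x) : tau Y P k x ∈ Zc (tr k Y) (m - 2 * k) := by
  have h1 := hom_P h hx.1
  refine mem_Zc.2 ⟨?_, ?_⟩
  · have h2 := hom_rs (k := k) h1
    have h3 : m - k - k = m - 2 * k := by ring
    rwa [h3] at h2
  · rw [tau_apply, ← rs_Dh h1 (by omega), cyc_P h hx.2, map_zero]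

theorem tau_Bc (h : Pair X Y m P P') {k : ℤ} (hk : 1 ≤ m - 2 * k) {x : X.ι → R}
    (hx : X.Hom k x) : tau Y P k x ∈ Bc (tr k Y) (m - 2 * k) ↔ X.Bd k x := by
  have h1 := hom_P h hx
  rw [mem_Bc]
  constructor
  · rintro ⟨w, hw, hwx⟩
    have h2 := hom_ex hw
    have h3 : m - 2 * k - 1 + k = m - k - 1 := by ring
    rw [h3] at h2
    refine P_bd h h2 ?_
    rw [ex_Dh, hwx, tau_apply, ex_rs h1 (by omega)]
  · intro hb
    obtain ⟨u, hu, hux⟩ := bd_P h hb
    refine ⟨rs k Y u, ?_, ?_⟩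
    · have h2 := hom_rs (k := k) hu
      have h3 : m - k - 1 - k = m - 2 * k - 1 := by ring
      rwa [h3] at h2
    · rw [← rs_Dh hu (by omega), hux, tau_apply]

omit [StarRing R] in
theorem ev_single {ι K : Type} [Fintype ι] [DecidableEq ι] [AddCommGroup K] [Module R K]
    (φ : (ι → R) →ₗ[R] K) (v : ι → R) : ev (fun a => φ (Pi.single a 1)) v = φ v := by
  show ∑ a, v a • φ (Pi.single a 1) = φ v
  conv_rhs => rw [LinearMap.pi_apply_eq_sum_univ φ v]
  refine Finset.sum_congr rfl fun a _ => ?_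
  congr 2
  funext b
  by_cases h : a = b
  · subst h; simp
  · rw [if_neg h, Pi.single_eq_of_ne (Ne.symm h)]

end star

section good

variable {R : Type} [Ring R] [StarRing R]

theorem good_res {d : ℤ} (hA : Aus R d) (X : FC R) (k : ℤ) (K : Submodule R (X.ι → R))
    (hc : ∀ v ∈ K, X.Cyc k v) (hb : ∀ v, X.Bd k v → v ∈ K) (he : ∀ i, k < i → X.Ex i) :
    ∃ (Z : FC R) (F : Matrix Z.ι X.ι R), IsMap Z X F ∧ (∀ a, k ≤ Z.deg a) ∧
      (∀ i, k < i → Z.Ex i) ∧ (∀ z, Z.Hom k z → z ᵥ* F ∈ K) ∧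
      (∀ v ∈ K, ∃ z, Z.Hom k z ∧ X.Bd k (v - z ᵥ* F)) ∧
      (∀ z, Z.Hom k z → X.Bd k (z ᵥ* F) → Z.Bd k z) := by
  have hN : IsNoetherianRing R := hA.noeth
  obtain ⟨N, i1, i2, η, hη, hfin⟩ := res_self (tr k X) tr_nonneg (tr_ex he)
  have hNn : IsNoetherian R N := isNoetherian_of_isNoetherianRing_of_finite R N
  -- the submodule of the module resolved by the truncation
  set L : Submodule R N := (K.comap (ex k X)).map (ev η) with hL
  have hLf : Module.Finite R L := inferInstance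
  obtain ⟨Z, ε, hZ, -⟩ := hA.res L hLf
  obtain ⟨F', hF', hg⟩ := lift_exists hZ hη L.subtype
  -- boundaries in the truncation
  have hbd : ∀ v : (tr k X).ι → R, (tr k X).Bd 0 v → X.Bd k (ex k X v) := by
    rintro v ⟨w, hw, rfl⟩
    have h1 := hom_ex hw
    have h2 : (0 : ℤ) + 1 + k = k + 1 := by ring
    rw [h2] at h1
    exact ⟨ex k X w, h1, ex_D hw (by norm_num)⟩
  have hbd' : ∀ v : X.ι → R, X.Bd k v → (tr k X).Bd 0 (rs k X v) := by
    rintro v ⟨w, hw, rfl⟩
    have h1 := hom_rs (k := k) hw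
    have h2 : k + 1 - k = 0 + 1 := by ring
    rw [h2] at h1
    exact ⟨rs k X w, h1, (rs_D w).symm⟩
  have hK0 : ∀ v : (tr k X).ι → R, ex k X v ∈ K → (tr k X).Hom 0 v := by
    intro v hv
    have h1 := hom_rs (k := k) (hc _ hv).1
    rwa [rs_ex, sub_self] at h1
  have hF0 : ∀ z, Z.Hom 0 z → (tr k X).Hom 0 (z ᵥ* F') := fun z hz => hom_map hF'.hom hz
  -- the matrix of the chain map
  set F : Matrix Z.ι X.ι R := fun a b => if h : k ≤ X.deg b then F' a ⟨b, h⟩ else 0 with hF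
  have hFex : ∀ z : Z.ι → R, z ᵥ* F = ex k X (z ᵥ* F') := by
    intro z
    funext b
    rw [ex_apply]
    show ∑ a, z a * F a b = _
    by_cases h : k ≤ X.deg b
    · rw [dif_pos h]
      show _ = ∑ a, z a * F' a ⟨b, h⟩
      refine Finset.sum_congr rfl fun a _ => ?_
      simp only [hF, dif_pos h]
    · rw [dif_neg h]
      refine Finset.sum_eq_zero fun a _ => ?_
      simp only [hF, dif_neg h, mul_zero]
  have hin : ∀ z, Z.Hom 0 z → z ᵥ* F ∈ K := by
    intro z hz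
    have h1 : ev η (z ᵥ* F') = ((ev ε z : L) : N) := hg z hz
    obtain ⟨w, hw, hw1⟩ := (ev ε z : L).2
    have hw0 : ex k X w ∈ K := hw
    have h2 : ev η (z ᵥ* F' - w) = 0 := by rw [map_sub, h1, hw1, sub_self]
    have h3 := hbd _ (hη.ker _ (hom_sub (hF0 z hz) (hK0 w hw0)) h2)
    have h4 := K.add_mem (hb _ h3) hw0
    rw [map_sub, sub_add_cancel] at h4
    rw [hFex]
    exact h4
  refine ⟨sh k Z, F, ⟨?_, ?_⟩, ?_, ?_, ?_, ?_, ?_⟩
  · intro a b hab
    by_cases h : k ≤ X.deg b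
    · have h1 : F' a ⟨b, h⟩ ≠ 0 := by
        intro h0
        apply hab
        simp only [hF, dif_pos h, h0]
      have h2 : Z.deg a = X.deg b - k := hF'.hom _ _ h1
      show Z.deg a + k = X.deg b
      omega
    · exact absurd (by simp only [hF, dif_neg h]) hab
  · -- chain map: check on basis vectors
    show Z.D * F = F * X.D
    have hrow : ∀ (a : Z.ι), Pi.single a (1 : R) ᵥ* (Z.D * F) = Pi.single a 1 ᵥ* (F * X.D) := by
      intro a
      rw [← vecMul_vecMul, ← vecMul_vecMul]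
      have hZa : Z.Hom (Z.deg a) (Pi.single a (1 : R)) := by
        intro b hb1
        by_contra h1
        apply hb1
        rw [Pi.single_eq_of_ne]
        intro h2
        exact h1 (by rw [h2])
      rcases eq_or_lt_of_le (hZ.nonneg a) with h0 | h0
      · -- degree `0`
        rw [← h0] at hZa
        have h1 : Pi.single a (1 : R) ᵥ* F ∈ K := hin _ hZa
        rw [(hc _ h1).2]
        have h2 : Pi.single a (1 : R) ᵥ* Z.D = 0 := by
          funext b
          by_contra h3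
          obtain ⟨c, h4, h5⟩ := vm_ne h3
          have h6 := hZa c h4
          have h7 := Z.hdeg c b h5
          have h8 := hZ.nonneg b
          omega
        rw [h2, zero_vecMul]
      · rw [hFex, hFex, ex_D (hom_map hF'.hom hZa) (by omega), vecMul_vecMul, vecMul_vecMul,
          hF'.comm]
    ext a b
    have h1 := congrFun (hrow a) b
    rwa [Matrix.single_one_vecMul, Matrix.single_one_vecMul] at h1
  · intro a
    have h1 := hZ.nonneg a
    show k ≤ Z.deg a + k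
    omega
  · intro i hi
    exact sh_Ex.2 (hZ.exact _ (by omega))
  · intro z hz
    have h1 := sh_hom.1 hz
    rw [sub_self] at h1
    exact hin z h1
  · intro v hv
    have hv1 : ex k X (rs k X v) = v := ex_rs (hc v hv).1 le_rfl
    have hv2 : ex k X (rs k X v) ∈ K := by rw [hv1]; exact hv
    obtain ⟨z, hz, hz1⟩ := hZ.surj ⟨ev η (rs k X v), ⟨rs k X v, hv2, rfl⟩⟩
    refine ⟨z, sh_hom.2 (by rw [sub_self]; exact hz), ?_⟩
    have h1 : ev η (z ᵥ* F') = ((ev ε z : L) : N) := hg z hz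
    rw [hz1] at h1
    have h2 : ev η (rs k X v - z ᵥ* F') = 0 := by rw [map_sub, h1, sub_self]
    have h3 := hbd _ (hη.ker _ (hom_sub (hK0 _ hv2) (hF0 z hz)) h2)
    rwa [map_sub, hv1, ← hFex] at h3
  · intro z hz hzb
    have hz0 := sh_hom.1 hz
    rw [sub_self] at hz0
    have h1 := hbd' _ hzb
    rw [hFex, rs_ex] at h1
    have h2 : ev η (z ᵥ* F') = 0 := by
      obtain ⟨w, hw, hw1⟩ := h1
      rw [← hw1]
      exact hη.aug w (by simpa using hw)
    rw [hg z hz0] at h2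
    have h3 : ev ε z = 0 := by
      apply Subtype.ext
      exact h2
    refine sh_bd.2 ?_
    rw [sub_self]
    exact hZ.ker z hz0 h3

theorem good_aus {d : ℤ} (hA : Aus R d) (X Y : FC R) (m : ℤ) (P : Matrix X.ι Y.ι R)
    (P' : Matrix Y.ι X.ι R) (h : Pair X Y m P P') (k : ℤ) (hY : ∀ i, k < i → Y.Ex i)
    (Z : FC R) (F : Matrix Z.ι X.ι R) (hF : IsMap Z X F) (hZk : ∀ a, k ≤ Z.deg a)
    (hZe : ∀ i, k < i → Z.Ex i) (hinj : ∀ z, Z.Hom k z → X.Bd k (z ᵥ* F) → Z.Bd k z) :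
    ∀ i, i < m - k → Z.CoEx i := by
  intro i hi
  rcases le_or_gt (m - 2 * k) 0 with h0 | h0
  · -- the degrees of `Z` are `≥ k > i`
    intro v hv _
    refine ⟨0, fun a ha => absurd rfl ha, ?_⟩
    rw [zero_vecMul]
    funext a
    by_contra h1
    have h2 := hv a (Ne.symm h1)
    have h3 := hZk a
    omega
  have hk : 1 ≤ m - 2 * k := by omega
  have hN : IsNoetherianRing R := hA.noeth
  set q : ℕ := (m - 2 * k).toNat with hq
  have hqz : (q : ℤ) = m - 2 * k := Int.toNat_of_nonneg (by omega)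
  have hle := hA.aus (tr k Y) tr_nonneg (tr_ex hY) q (by omega)
  rw [hqz] at hle
  -- the projection to degree `k`
  let p0 : (Z.ι → R) →ₗ[R] (Z.ι → R) :=
    { toFun := fun v a => if Z.deg a = k then v a else 0
      map_add' := fun v w => by funext a; by_cases h : Z.deg a = k <;> simp [h]
      map_smul' := fun r v => by funext a; by_cases h : Z.deg a = k <;> simp [h] }
  have hp0 : ∀ v, Z.Hom k (p0 v) := by
    intro v a ha
    by_contra h1
    apply ha
    show (if Z.deg a = k then v a else 0) = 0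
    rw [if_neg h1]
  have hp1 : ∀ v, Z.Hom k v → p0 v = v := by
    intro v hv
    funext a
    show (if Z.deg a = k then v a else 0) = v a
    by_cases h1 : Z.deg a = k
    · rw [if_pos h1]
    · rw [if_neg h1]
      by_contra h2
      exact h1 (hv a (Ne.symm h2))
  have hcyc : ∀ v, Z.Hom k v → X.Cyc k (v ᵥ* F) := by
    intro v hv
    refine ⟨hom_map hF.hom hv, ?_⟩
    rw [vecMul_vecMul, ← hF.comm, ← vecMul_vecMul]
    have h2 : v ᵥ* Z.D = 0 := by
      funext b
      by_contra h3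
      obtain ⟨c, h4, h5⟩ := vm_ne h3
      have h6 := hv c h4
      have h7 := Z.hdeg c b h5
      have h8 := hZk b
      omega
    rw [h2, zero_vecMul]
  let ψ : (Z.ι → R) →ₗ[R] ((tr k Y).ι → R) := (tau Y P k).comp ((F.vecMulLinear).comp p0)
  have hψ : ∀ v, Z.Hom k v → ψ v = tau Y P k (v ᵥ* F) := by
    intro v hv
    show tau Y P k (p0 v ᵥ* F) = _
    rw [hp1 v hv]
  let K : Submodule R ((tr k Y).ι → R) := LinearMap.range ψ
  have hKfg : K.FG := IsNoetherian.noetherian K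
  have hKle : K ≤ Zc (tr k Y) (m - 2 * k) := by
    rintro _ ⟨v, rfl⟩
    exact tau_Zc h hk (hcyc _ (hp0 v))
  have hgr := hle K hKfg hKle
  let φ : (Z.ι → R) →ₗ[R] (K ⧸ (Bc (tr k Y) (m - 2 * k)).submoduleOf K) :=
    (Submodule.mkQ _).comp ψ.rangeRestrict
  have hφ : ∀ v, Z.Hom k v → (φ v = 0 ↔ X.Bd k (v ᵥ* F)) := by
    intro v hv
    rw [← tau_Bc h hk (hcyc v hv).1, ← hψ v hv]
    show (Submodule.Quotient.mk (ψ.rangeRestrict v) : K ⧸ _) = 0 ↔ _
    rw [Submodule.Quotient.mk_eq_zero]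
    exact Iff.rfl
  have hres : IsRes (sh (-k) Z) (fun a => φ (Pi.single a 1)) := by
    constructor
    · intro a
      have := hZk a
      show 0 ≤ Z.deg a + -k
      omega
    · intro j hj
      exact sh_Ex.2 (hZe _ (by omega))
    · intro w hw
      rw [ev_single]
      have hw1 : Z.Hom (k + 1) w := by
        have h1 := sh_hom.1 hw
        have h2 : 1 - -k = k + 1 := by ring
        rwa [h2] at h1
      refine (hφ _ (hom_D hw1)).2 ⟨w ᵥ* F, hom_map hF.hom hw1, ?_⟩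
      show w ᵥ* F ᵥ* X.D = w ᵥ* Z.D ᵥ* F
      rw [vecMul_vecMul, vecMul_vecMul, hF.comm]
    · intro v hv hv0
      rw [ev_single] at hv0
      have hv1 : Z.Hom k v := by
        have h1 := sh_hom.1 hv
        have h2 : 0 - -k = k := by ring
        rwa [h2] at h1
      refine sh_bd.2 ?_
      have h2 : 0 - -k = k := by ring
      rw [h2]
      exact hinj v hv1 ((hφ v hv1).1 hv0)
    · intro x
      obtain ⟨⟨y, v, rfl⟩, rfl⟩ := Submodule.Quotient.mk_surjective _ x
      refine ⟨p0 v, sh_hom.2 ?_, ?_⟩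
      · have h2 : 0 - -k = k := by ring
        rw [h2]
        exact hp0 v
      · rw [ev_single]
        show Submodule.Quotient.mk (ψ.rangeRestrict (p0 v)) = _
        congr 1
        apply Subtype.ext
        show tau Y P k (p0 (p0 v) ᵥ* F) = tau Y P k (p0 v ᵥ* F)
        rw [hp1 _ (hp0 v)]
  have h1 := hgr.all hres (i - k) (by omega)
  have h2 := sh_coex.1 h1
  have h3 : i - k - -k = i := by ring
  rwa [h3] at h2

theorem good_top {d : ℤ} (hA : Aus R d) (X Y : FC R) (m : ℤ) (P : Matrix X.ι Y.ι R)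
    (P' : Matrix Y.ι X.ι R) (h : Pair X Y m P P') (k : ℤ) (hY : ∀ i, k < i → Y.Ex i)
    (hd : max d 0 < m - 2 * k) : X.Ex k := by
  have hd1 : d < m - 2 * k := lt_of_le_of_lt (le_max_left _ _) hd
  have hk : 1 ≤ m - 2 * k := by
    have := lt_of_le_of_lt (le_max_right d 0) hd
    omega
  obtain ⟨N, i1, i2, η, hη, hfin⟩ := res_self (tr k Y) tr_nonneg (tr_ex hY)
  obtain ⟨W, ε, hW, hWd⟩ := hA.res N hfin
  have h1 : W.CoEx (m - 2 * k) := by
    intro v hv _
    refine ⟨0, fun a ha => absurd rfl ha, ?_⟩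
    rw [zero_vecMul]
    funext a
    by_contra h1
    have h2 := hv a (Ne.symm h1)
    have h3 := hWd a
    omega
  have h2 := (coex_iff hW hη (m - 2 * k)).1 h1
  intro x hx
  have h3 := mem_Zc.1 (tau_Zc h hk hx)
  exact (tau_Bc h hk hx.1).1 (mem_Bc.2 (h2 _ h3.1 h3.2))

end good

end GO

/-- Auslander regular rings with involution have the properties of the surgery argument -/
theorem good_of_aus {R : Type} [Ring R] [StarRing R] {d : ℤ} (hA : Aus R d) : Good R where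
  res := GO.good_res hA
  aus X Y m P P' h k hY Z F hF hZk hZe hinj :=
    GO.good_aus hA X Y m P P' h k hY Z F hF hZk hZe hinj
  top := ⟨max d 0, fun X Y m P P' h k hY hd => GO.good_top hA X Y m P P' h k hY hd⟩

end Pool.Agent.H5.UR
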