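import Pool.Agent.H5.UR.PolyZ
import Pool.Agent.H5.UR.GoodOf
import Pool.Agent.H19.UR.Step

/-!
# The group ring of a poly-infinite-cyclic group is Auslander regular

MP_c13a79_gt, Theorem U, block (4), final statements.
-/

set_option autoImplicit false

open Pool.Agent.H17.LTh Pool.Agent.H16.UN Pool.Agent.H19.UR

namespace Pool.Agent.H5.UR

theorem aus_polyZ (C : Type) [Group C] (hC : PolyZ C) (w : C →* ℤˣ) : ∃ d, Aus (GR ℤ C w) d :=
  aus_polyZ_of (fun _ _ _ _ _ _ _ L _ h => aus_step L h) C hC w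

theorem good_polyZ (C : Type) [Group C] (hC : PolyZ C) (w : C →* ℤˣ) : Good (GR ℤ C w) := by
  obtain ⟨d, hd⟩ := aus_polyZ C hC w
  exact good_of_aus hd

end Pool.Agent.H5.UR
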