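import Pool.Agent.H5.UR.Skew
import Pool.Agent.H19.UR.Lau

/-!
# The group ring of a poly-infinite-cyclic group is an iterated skew Laurent extension

`Skew.lau`: the structure `Lau` (coefficients on the right) from the structure `Skew` (coefficients
on the left).  MP_c13a79_gt, Theorem U, block (4).
-/

set_option autoImplicit false

open Pool.Agent.H17.LTh Pool.Agent.H16.UN Pool.Agent.H19.UR

namespace Pool.Agent.H5.UR

variable {R S : Type} [Ring R] [StarRing R] [Ring S] [StarRing S]

omit [StarRing R] in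
theorem zpow_neg_cancel (σ : R ≃+* R) (n : ℤ) (r : R) : (σ ^ n) ((σ ^ (-n)) r) = r := by
  change ((σ ^ n) * (σ ^ (-n))) r = r
  rw [← zpow_add, add_neg_cancel, zpow_zero]
  rfl

omit [StarRing R] in
theorem zpow_neg_cancel' (σ : R ≃+* R) (n : ℤ) (r : R) : (σ ^ (-n)) ((σ ^ n) r) = r := by
  change ((σ ^ (-n)) * (σ ^ n)) r = r
  rw [← zpow_add, neg_add_cancel, zpow_zero]
  rfl

/-- `Skew` gives `Lau` -/
noncomputable def Skew.lau (h : Skew R S) [Module R S]
    (hs : ∀ (r : R) (s : S), r • s = h.i r * s) : Lau R S where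
  i := h.i
  smul_eq := hs
  istar r := (h.star_i r).symm
  t := h.t
  σ := h.σ
  comm := h.comm
  e := h.e
  he := eps_eps
  tstar := by rw [h.star_t, zsmul_eq_mul]
  co n := ((h.σ ^ (-n) : R ≃+* R) : R →+ R).comp
    ((Finsupp.applyAddHom n).comp (h.co : S →+ (ℤ →₀ R)))
  fin s := by
    refine (h.co s).support.finite_toSet.subset fun n hn => ?_
    rw [Finset.mem_coe, Finsupp.mem_support_iff]
    intro h0
    apply hn
    change (h.σ ^ (-n)) (h.co s n) = 0
    rw [h0, map_zero]
  expand s := by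
    have h1 : ∀ n : ℤ, ((h.t ^ n : Sˣ) : S) * h.i ((h.σ ^ (-n)) (h.co s n)) =
        h.i (h.co s n) * ((h.t ^ n : Sˣ) : S) := by
      intro n
      rw [h.comm_zpow, zpow_neg_cancel]
    have h2 : s = ∑ n ∈ (h.co s).support, h.i (h.co s n) * ((h.t ^ n : Sˣ) : S) := h.eq_sum s
    conv_lhs => rw [h2]
    symm
    apply Finset.sum_subset_zero_on_sdiff
    · intro n hn
      rw [Set.Finite.mem_toFinset] at hn
      rw [Finsupp.mem_support_iff]
      intro h0
      apply hn
      change (h.σ ^ (-n)) (h.co s n) = 0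
      rw [h0, map_zero]
    · intro n hn
      rw [Finset.mem_sdiff, Set.Finite.mem_toFinset] at hn
      have h3 : (h.σ ^ (-n)) (h.co s n) = 0 := not_not.1 hn.2
      have h4 : h.co s n = 0 := by
        rw [← zpow_neg_cancel h.σ n (h.co s n), h3, map_zero]
      rw [h4, map_zero, zero_mul]
    · intro n _
      exact h1 n
  co_mono m n r := by
    change (h.σ ^ (-n)) (h.co (((h.t ^ m : Sˣ) : S) * h.i r) n) = _
    rw [h.comm_zpow, h.co_mono, Finsupp.single_apply]
    split_ifs with hmn
    · rw [← hmn, zpow_neg_cancel']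
    · rw [map_zero]

end Pool.Agent.H5.UR
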