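import Pool.Agent.H19.UR.Def

/-!
# Principal ideal domains satisfy the conditions (g1), (g2), (g3) with `d = 1`

MP_c13a79_gt, Theorem U, block (4), the base of the induction.  `R` is a principal ideal domain with
any involution.

* `two`: the complex `R^m → R^n` given by a matrix `B`; `two_res`: every finitely generated module
  has such a resolution.
* `Ext^q(N, R) = 0` for `q ≥ 2`: a functional `φ` on `Y_q` vanishing on the boundaries factors
  through the projective module `B_{q-1} = Z_{q-1}`, a direct summand of `Y_{q-1}`.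
* `Ext^1(N, R)` is a torsion module (linear algebra over the fraction field), and `Hom(K, R) = 0` for
  a finitely generated torsion module `K`.
-/

set_option autoImplicit false

open Matrix Pool.Agent.H16.UN Pool.Agent.H19.UR

namespace Pool.Agent.H5.UR

section two

variable {R : Type} [Ring R]

/-- the complex `R^m → R^n` given by the matrix `B` -/
@[reducible] def two (m n : ℕ) (B : Matrix (Fin m) (Fin n) R) : FC R where
  ι := Fin m ⊕ Fin n
  deg := Sum.elim (fun _ => 1) (fun _ => 0)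
  D := fromBlocks 0 B 0 0
  hdeg := by
    rintro (a | a) (b | b) h
    · exact absurd rfl h
    · simp
    · exact absurd rfl h
    · exact absurd rfl h
  hD := by rw [fromBlocks_multiply]; simp

/-- the empty complex -/
@[reducible] def nil (R : Type) [Ring R] : FC R where
  ι := Empty
  deg a := a.elim
  D := 0
  hdeg a := a.elim
  hD := by simp

theorem nil_res {K : Type} [AddCommGroup K] [Module R K] [Subsingleton K] :
    IsRes (nil R) (K := K) (fun a => a.elim) where
  nonneg a := a.elim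
  exact k _ v _ := ⟨v, fun a => a.elim, by ext a; exact a.elim⟩
  aug w _ := Subsingleton.elim _ _
  ker v _ _ := ⟨v, fun a => a.elim, by ext a; exact a.elim⟩
  surj x := ⟨0, fun a => a.elim, Subsingleton.elim _ _⟩

theorem gr_of_subsingleton [StarRing R] {K : Type} [AddCommGroup K] [Module R K]
    [Subsingleton K] (j : ℕ) : Gr R j K :=
  ⟨nil R, fun a => a.elim, nil_res, fun i _ v _ _ => ⟨v, fun a => a.elim, by ext a; exact a.elim⟩⟩

/-- the properties of a presentation `R^m → R^n → K` with `R^m → R^n` injective -/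
structure Pres {m n : ℕ} (B : Matrix (Fin m) (Fin n) R) {K : Type} [AddCommGroup K] [Module R K]
    (g : Fin n → K) : Prop where
  inj : ∀ a : Fin m → R, a ᵥ* B = 0 → a = 0
  zero : ∀ a : Fin m → R, ∑ j, (a ᵥ* B) j • g j = 0
  ker : ∀ b : Fin n → R, ∑ j, b j • g j = 0 → ∃ a : Fin m → R, a ᵥ* B = b
  surj : ∀ x : K, ∃ b : Fin n → R, ∑ j, b j • g j = x

theorem two_vecMul {m n : ℕ} (B : Matrix (Fin m) (Fin n) R) (a : Fin m → R) (b : Fin n → R) :
    (Sum.elim a b : Fin m ⊕ Fin n → R) ᵥ* (two m n B).D =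
      (Sum.elim 0 (a ᵥ* B) : Fin m ⊕ Fin n → R) := by
  change (Sum.elim a b : Fin m ⊕ Fin n → R) ᵥ* fromBlocks 0 B 0 0 = _
  rw [vecMul_fromBlocks]
  simp [Sum.elim_comp_inl, Sum.elim_comp_inr]

theorem two_isRes {m n : ℕ} {B : Matrix (Fin m) (Fin n) R} {K : Type} [AddCommGroup K]
    [Module R K] {g : Fin n → K} (h : Pres B g) : IsRes (two m n B) (Sum.elim 0 g) where
  nonneg := by rintro (a | a) <;> simp [two]
  exact k hk v hvv := by
    obtain ⟨hv, hv0⟩ := hvv
    have h1 : v = Sum.elim (v ∘ Sum.inl) (v ∘ Sum.inr) := (Sum.elim_comp_inl_inr v).symm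
    rw [h1, two_vecMul] at hv0
    have h2 : (v ∘ Sum.inl) ᵥ* B = 0 := by
      ext j
      exact congrFun hv0 (Sum.inr j)
    have h3 := h.inj _ h2
    have h4 : v ∘ Sum.inr = 0 := by
      ext j
      by_contra h0
      have := hv (Sum.inr j) h0
      simp [two] at this
      omega
    refine ⟨0, fun a ha => absurd rfl ha, ?_⟩
    rw [zero_vecMul, h1, h3, h4]
    ext (a | a) <;> rfl
  aug w _ := by
    have h1 : w = Sum.elim (w ∘ Sum.inl) (w ∘ Sum.inr) := (Sum.elim_comp_inl_inr w).symm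
    rw [h1, two_vecMul]
    change ∑ a : Fin m ⊕ Fin n, _ = _
    rw [Fintype.sum_sum_type]
    simp [h.zero]
  ker v hv hv0 := by
    have h1 : v = Sum.elim (v ∘ Sum.inl) (v ∘ Sum.inr) := (Sum.elim_comp_inl_inr v).symm
    have h2 : v ∘ Sum.inl = 0 := by
      ext j
      by_contra h0
      have := hv (Sum.inl j) h0
      simp [two] at this
    have h3 : ∑ j, (v ∘ Sum.inr) j • g j = 0 := by
      have h4 : ∑ a : Fin m ⊕ Fin n, v a • (Sum.elim 0 g : Fin m ⊕ Fin n → K) a = 0 := hv0
      rw [Fintype.sum_sum_type] at h4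
      simpa using h4
    obtain ⟨a, ha⟩ := h.ker _ h3
    refine ⟨Sum.elim a 0, ?_, ?_⟩
    · rintro (b | b) hb
      · simp [two]
      · exact absurd rfl hb
    · rw [two_vecMul, ha, h1, h2]
      ext (b | b) <;> rfl
  surj x := by
    obtain ⟨b, hb⟩ := h.surj x
    refine ⟨Sum.elim 0 b, ?_, ?_⟩
    · rintro (c | c) hc
      · exact absurd rfl hc
      · simp [two]
    · change ∑ a : Fin m ⊕ Fin n, _ = _
      rw [Fintype.sum_sum_type]
      simpa using hb

end two

section pid

variable {R : Type} [CommRing R] [IsDomain R] [IsPrincipalIdealRing R]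

theorem exists_pres (K : Type) [AddCommGroup K] [Module R K] [Module.Finite R K] :
    ∃ (m n : ℕ) (B : Matrix (Fin m) (Fin n) R) (g : Fin n → K), Pres B g := by
  obtain ⟨n, f, hf⟩ := Module.Finite.exists_fin' R K
  obtain ⟨m, bas⟩ := Submodule.basisOfPid (Pi.basisFun R (Fin n)) (LinearMap.ker f)
  have hfs : ∀ b : Fin n → R, ∑ j, b j • f (Pi.single j 1) = f b := by
    intro b
    conv_rhs => rw [← Finset.univ_sum_single b]
    rw [map_sum]
    refine Finset.sum_congr rfl fun j _ => ?_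
    rw [← map_smul]
    congr 1
    ext i
    by_cases hij : i = j
    · subst hij; simp
    · simp [hij]
  have hB : ∀ a : Fin m → R, a ᵥ* (Matrix.of fun i j => (bas i : Fin n → R) j) =
      ((∑ i, a i • bas i : LinearMap.ker f) : Fin n → R) := by
    intro a
    ext j
    simp [vecMul, dotProduct]
  refine ⟨m, n, Matrix.of fun i j => (bas i : Fin n → R) j, fun j => f (Pi.single j 1), ?_, ?_, ?_,
    ?_⟩
  · intro a ha
    rw [hB] at ha
    have h1 : (∑ i, a i • bas i : LinearMap.ker f) = 0 := Subtype.ext ha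
    ext i
    exact Fintype.linearIndependent_iff.1 bas.linearIndependent a h1 i
  · intro a
    rw [hfs, hB]
    exact (∑ i, a i • bas i : LinearMap.ker f).2
  · intro b hb
    rw [hfs] at hb
    refine ⟨fun i => bas.repr ⟨b, hb⟩ i, ?_⟩
    rw [hB, bas.sum_repr]
  · intro x
    obtain ⟨b, hb⟩ := hf x
    exact ⟨b, by rw [hfs, hb]⟩

/-- `Hom(K, R) = 0` for a finitely generated torsion module -/
theorem gr_one_of_torsion [StarRing R] {K : Type} [AddCommGroup K] [Module R K]
    [Module.Finite R K] (r : R) (hr : r ≠ 0) (hK : ∀ x : K, r • x = 0) : Gr R 1 K := by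
  obtain ⟨m, n, B, g, h⟩ := exists_pres (R := R) K
  refine ⟨two m n B, Sum.elim 0 g, two_isRes h, ?_⟩
  intro i hi v hv hv0
  refine ⟨0, fun a ha => absurd rfl ha, ?_⟩
  rw [zero_vecMul]
  symm
  -- the rows `r e_j` are combinations of the rows of `B`
  have hc : ∀ j : Fin n, ∃ a : Fin m → R, a ᵥ* B = Pi.single j r := by
    intro j
    apply h.ker
    rw [Finset.sum_eq_single j]
    · rw [Pi.single_eq_same]; exact hK _
    · intro b _ hb
      rw [Pi.single_eq_of_ne hb, zero_smul]
    · intro hj; exact absurd (Finset.mem_univ j) hj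
  choose C hC using hc
  have h1 : ∀ i : Fin m, ∑ j, B i j * star (v (Sum.inr j)) = 0 := by
    intro i
    have h2 := congrFun hv0 (Sum.inl i)
    have h3 : (v ᵥ* (two m n B).Dᴴ) (Sum.inl i) =
        ∑ j, v (Sum.inr j) * star (B i j) := by
      change ∑ a : Fin m ⊕ Fin n, v a * (fromBlocks 0 B 0 0)ᴴ a (Sum.inl i) = _
      rw [Fintype.sum_sum_type]
      simp [conjTranspose_apply]
    rw [h3] at h2
    have h4 := congrArg star h2
    rw [star_sum] at h4
    have h5 : star ((0 : Fin m ⊕ Fin n → R) (Sum.inl i)) = 0 := star_zero R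
    rw [← h5, ← h4]
    refine Finset.sum_congr rfl fun j _ => ?_
    rw [star_mul, star_star]
  have h5 : ∀ j : Fin n, v (Sum.inr j) = 0 := by
    intro j
    have h6 : ∑ i, C j i * ∑ j', B i j' * star (v (Sum.inr j')) = r * star (v (Sum.inr j)) := by
      simp_rw [Finset.mul_sum]
      rw [Finset.sum_comm]
      have h7 : ∀ j', ∑ i, C j i * (B i j' * star (v (Sum.inr j'))) =
          (Pi.single j r : Fin n → R) j' * star (v (Sum.inr j')) := by
        intro j'
        rw [← hC j]
        simp only [vecMul, dotProduct, Finset.sum_mul, mul_assoc]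
      simp_rw [h7]
      rw [Finset.sum_eq_single j]
      · rw [Pi.single_eq_same]
      · intro b _ hb
        rw [Pi.single_eq_of_ne hb, zero_mul]
      · intro hj; exact absurd (Finset.mem_univ j) hj
    simp_rw [h1, mul_zero] at h6
    rw [Finset.sum_const_zero] at h6
    have h8 := (mul_eq_zero.1 h6.symm).resolve_left hr
    exact star_eq_zero.1 h8
  ext (a | a)
  · by_contra h0
    have h6 : (1 : ℤ) = i := hv (Sum.inl a) h0
    omega
  · exact h5 a

/-- a linear map to a free module of finite rank has a section over its range -/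
theorem exists_sec {M : Type} [AddCommGroup M] [Module R M] {ι : Type} [Fintype ι]
    (f : M →ₗ[R] (ι → R)) : ∃ s : LinearMap.range f →ₗ[R] M, ∀ y, f (s y) = y := by
  have hfree : Module.Free R (LinearMap.range f) :=
    Module.Free.of_basis (Submodule.basisOfPid (Pi.basisFun R ι) (LinearMap.range f)).2
  obtain ⟨s, hs⟩ := Module.projective_lifting_property f.rangeRestrict LinearMap.id
    f.surjective_rangeRestrict
  refine ⟨s, fun y => ?_⟩
  have h1 := LinearMap.congr_fun hs y
  exact congrArg Subtype.val h1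

/-- a functional on a submodule extends after multiplication by a nonzero element -/
theorem extend_functional {ι : Type} [Fintype ι] (T : Submodule R (ι → R)) (ψ : T →ₗ[R] R) :
    ∃ (r : R) (Ψ : (ι → R) →ₗ[R] R), r ≠ 0 ∧ ∀ y : T, Ψ y = r * ψ y := by
  classical
  obtain ⟨n, snf⟩ := Submodule.smithNormalForm (Pi.basisFun R ι) T
  have ha : ∀ i, snf.a i ≠ 0 := by
    intro i h0
    have h1 := snf.snf i
    rw [h0, zero_smul] at h1
    exact snf.bN.ne_zero i (Subtype.ext h1)
  refine ⟨∏ i, snf.a i, snf.bM.constr R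
    (Function.extend snf.f (fun i => (∏ i' ∈ Finset.univ.erase i, snf.a i') * ψ (snf.bN i)) 0),
    Finset.prod_ne_zero_iff.2 fun i _ => ha i, ?_⟩
  intro y
  set Ψ := snf.bM.constr R
    (Function.extend snf.f (fun i => (∏ i' ∈ Finset.univ.erase i, snf.a i') * ψ (snf.bN i)) 0)
    with hΨ
  have h2 : Ψ.comp T.subtype = (∏ i, snf.a i) • ψ := by
    refine snf.bN.ext fun i => ?_
    rw [LinearMap.comp_apply, Submodule.subtype_apply, snf.snf i, map_smul, hΨ,
      Module.Basis.constr_basis, snf.f.injective.extend_apply, LinearMap.smul_apply, smul_eq_mul,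
      smul_eq_mul, ← mul_assoc, Finset.mul_prod_erase _ _ (Finset.mem_univ i)]
  have h3 := LinearMap.congr_fun h2 y
  simpa using h3

section ext

variable [StarRing R] (Y : FC R)

/-- the functional on row vectors given by `v` -/
def fun' (v : Y.ι → R) : (Y.ι → R) →ₗ[R] R where
  toFun x := ∑ a, x a * star (v a)
  map_add' x y := by simp [add_mul, Finset.sum_add_distrib]
  map_smul' r x := by simp [Finset.mul_sum, mul_assoc]

omit [IsDomain R] [IsPrincipalIdealRing R] in
theorem fun'_D {v : Y.ι → R} (hv : v ᵥ* Y.Dᴴ = 0) (x : Y.ι → R) : fun' Y v (x ᵥ* Y.D) = 0 := by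
  have h1 : ∀ b, ∑ a, Y.D b a * star (v a) = 0 := by
    intro b
    have h2 := congrArg star (congrFun hv b)
    have h3 : (v ᵥ* Y.Dᴴ) b = ∑ a, v a * star (Y.D b a) := rfl
    rw [h3, star_sum] at h2
    have h5 : star ((0 : Y.ι → R) b) = 0 := star_zero R
    rw [← h5, ← h2]
    refine Finset.sum_congr rfl fun j _ => ?_
    rw [star_mul, star_star]
  change ∑ a, (∑ b, x b * Y.D b a) * star (v a) = 0
  simp_rw [Finset.sum_mul, mul_assoc]
  rw [Finset.sum_comm]
  simp_rw [← Finset.mul_sum, h1, mul_zero, Finset.sum_const_zero]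

omit [IsDomain R] [IsPrincipalIdealRing R] in
theorem of_functional {q : ℤ} {v : Y.ι → R} (hv : Y.Hom q v) (r : R)
    (Ψ : (Y.ι → R) →ₗ[R] R) (hΨ : ∀ w, Y.Hom q w → Ψ (w ᵥ* Y.D) = r * fun' Y v w) :
    ∃ u, Y.Hom (q - 1) u ∧ u ᵥ* Y.Dᴴ = star r • v := by
  classical
  refine ⟨fun b => if Y.deg b = q - 1 then star (Ψ (Pi.single b 1)) else 0, ?_, ?_⟩
  · intro b hb
    by_contra h0
    exact hb (if_neg h0)
  · ext a
    change ∑ b, (if Y.deg b = q - 1 then star (Ψ (Pi.single b 1)) else 0) * star (Y.D a b) =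
      star r * v a
    by_cases ha : Y.deg a = q
    · have h1 : ∀ b, (if Y.deg b = q - 1 then star (Ψ (Pi.single b 1)) else 0) * star (Y.D a b) =
          star (Y.D a b * Ψ (Pi.single b 1)) := by
        intro b
        by_cases h0 : Y.D a b = 0
        · rw [h0]; simp
        · have h2 := Y.hdeg a b h0
          rw [if_pos (by omega), star_mul]
      simp_rw [h1]
      rw [← star_sum]
      have h3 : ∑ b, Y.D a b * Ψ (Pi.single b 1) = Ψ ((Pi.single a 1 : Y.ι → R) ᵥ* Y.D) := by
        have h4 : (Pi.single a 1 : Y.ι → R) ᵥ* Y.D = ∑ b, Y.D a b • (Pi.single b 1 : Y.ι → R) := by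
          ext c
          rw [Finset.sum_apply, Matrix.single_one_vecMul]
          rw [Finset.sum_eq_single c]
          · simp
          · intro b _ hb
            simp [Pi.single_eq_of_ne' hb]
          · intro h; exact absurd (Finset.mem_univ c) h
        rw [h4, map_sum]
        simp_rw [map_smul, smul_eq_mul]
      rw [h3, hΨ]
      · have h5 : fun' Y v (Pi.single a 1) = star (v a) := by
          change ∑ c, (Pi.single a 1 : Y.ι → R) c * star (v c) = _
          rw [Finset.sum_eq_single a]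
          · rw [Pi.single_eq_same, one_mul]
          · intro b _ hb
            rw [Pi.single_eq_of_ne hb, zero_mul]
          · intro h; exact absurd (Finset.mem_univ a) h
        rw [h5, star_mul, star_star, mul_comm]
      · intro c hc
        by_cases hca : c = a
        · rw [hca]; exact ha
        · exact absurd (Pi.single_eq_of_ne hca 1) hc
    · have h1 : v a = 0 := by
        by_contra h0
        exact ha (hv a h0)
      rw [h1, mul_zero]
      refine Finset.sum_eq_zero fun b _ => ?_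
      by_cases h0 : Y.D a b = 0
      · rw [h0]; simp
      · have h2 := Y.hdeg a b h0
        rw [if_neg (by omega), zero_mul]

/-- the submodule of chains of degree `k` -/
def Sk (k : ℤ) : Submodule R (Y.ι → R) where
  carrier := {v | Y.Hom k v}
  add_mem' := by
    intro v w h1 h2 a ha
    by_cases hv : v a = 0
    · exact h2 a fun hw => ha (by simp [hv, hw])
    · exact h1 a hv
  zero_mem' := fun a ha => absurd rfl ha
  smul_mem' := by
    intro r v h1 a ha
    exact h1 a fun hv => ha (by simp [hv])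

/-- the differential on the chains of degree `k` -/
noncomputable def fk (k : ℤ) : Sk Y k →ₗ[R] (Y.ι → R) :=
  (Matrix.vecMulLinear Y.D).comp (Sk Y k).subtype

omit [IsDomain R] [IsPrincipalIdealRing R] [StarRing R] in
theorem fk_apply (k : ℤ) (w : Sk Y k) : fk Y k w = (w : Y.ι → R) ᵥ* Y.D := rfl

omit [IsDomain R] [IsPrincipalIdealRing R] [StarRing R] in
theorem hom_D {k : ℤ} {w : Y.ι → R} (hw : Y.Hom k w) : Y.Hom (k - 1) (w ᵥ* Y.D) := by
  intro b hb
  obtain ⟨a, -, ha⟩ := Finset.exists_ne_zero_of_sum_ne_zero (hb : ∑ a, w a * Y.D a b ≠ 0)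
  have h1 := hw a (left_ne_zero_of_mul ha)
  have h2 := Y.hdeg a b (right_ne_zero_of_mul ha)
  omega

/-- the functional on the boundaries induced by a cocycle -/
theorem exists_psi (h1 : ∀ k, 0 < k → Y.Ex k) {q : ℤ} (hq : 0 < q) {v : Y.ι → R}
    (hv0 : v ᵥ* Y.Dᴴ = 0) :
    ∃ ψ : LinearMap.range (fk Y q) →ₗ[R] R, ∀ w : Sk Y q, ∀ h, ψ ⟨fk Y q w, h⟩ = fun' Y v w := by
  obtain ⟨s, hs⟩ := exists_sec (fk Y q)
  refine ⟨(fun' Y v).comp ((Sk Y q).subtype.comp s), ?_⟩
  intro w h
  change fun' Y v (s ⟨fk Y q w, h⟩ : Y.ι → R) = fun' Y v w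
  rw [← sub_eq_zero, ← map_sub]
  have h2 : Y.Cyc q ((s ⟨fk Y q w, h⟩ : Y.ι → R) - w) := by
    refine ⟨(Sk Y q).sub_mem (s ⟨fk Y q w, h⟩).2 w.2, ?_⟩
    have h3 := hs ⟨fk Y q w, h⟩
    rw [sub_vecMul]
    rw [fk_apply] at h3
    rw [h3]
    exact sub_self _
  obtain ⟨y, -, hy⟩ := h1 q hq _ h2
  rw [← hy]
  exact fun'_D Y hv0 y

/-- `Ext^q = 0` for `q ≥ 2` -/
theorem zc_le_bc (h1 : ∀ k, 0 < k → Y.Ex k) {q : ℤ} (hq : 2 ≤ q) : Zc Y q ≤ Bc Y q := by
  rintro v ⟨hv, hv0⟩
  obtain ⟨ψ, hψ⟩ := exists_psi Y h1 (by omega : 0 < q) hv0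
  obtain ⟨s, hs⟩ := exists_sec (fk Y (q - 1))
  -- the projection onto the cycles
  let p : Sk Y (q - 1) →ₗ[R] (Y.ι → R) :=
    (Sk Y (q - 1)).subtype - (Sk Y (q - 1)).subtype.comp (s.comp (fk Y (q - 1)).rangeRestrict)
  have hp : ∀ x, p x ∈ LinearMap.range (fk Y q) := by
    intro x
    have h2 : Y.Cyc (q - 1) (p x) := by
      refine ⟨(Sk Y (q - 1)).sub_mem x.2 (s ((fk Y (q - 1)).rangeRestrict x)).2, ?_⟩
      change ((x : Y.ι → R) - (s ((fk Y (q - 1)).rangeRestrict x) : Y.ι → R)) ᵥ* Y.D = 0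
      rw [sub_vecMul]
      have h3 := hs ((fk Y (q - 1)).rangeRestrict x)
      rw [fk_apply] at h3
      rw [h3]
      exact sub_self _
    obtain ⟨w, hw, hw2⟩ := h1 (q - 1) (by omega) _ h2
    have e1 : q - 1 + 1 = q := by omega
    rw [e1] at hw
    exact ⟨⟨w, hw⟩, hw2⟩
  let ψ' : Sk Y (q - 1) →ₗ[R] R := ψ.comp (LinearMap.codRestrict _ p hp)
  -- the projection onto the chains of degree `q - 1`
  classical
  let P : (Y.ι → R) →ₗ[R] Sk Y (q - 1) :=
    { toFun := fun x => ⟨fun a => if Y.deg a = q - 1 then x a else 0, fun a ha => by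
        by_contra h0
        exact ha (if_neg h0)⟩
      map_add' := fun x y => by
        apply Subtype.ext
        ext a
        change (if Y.deg a = q - 1 then x a + y a else 0) =
          (if Y.deg a = q - 1 then x a else 0) + (if Y.deg a = q - 1 then y a else 0)
        split_ifs <;> simp
      map_smul' := fun r x => by
        apply Subtype.ext
        ext a
        change (if Y.deg a = q - 1 then r * x a else 0) =
          r * (if Y.deg a = q - 1 then x a else 0)
        split_ifs <;> simp }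
  have hP : ∀ x (hx : Y.Hom (q - 1) x), P x = ⟨x, hx⟩ := by
    intro x hx
    apply Subtype.ext
    ext a
    change (if Y.deg a = q - 1 then x a else 0) = x a
    split_ifs with h
    · rfl
    · by_contra h0
      exact h (hx a (Ne.symm h0))
  obtain ⟨u, hu, hu2⟩ := of_functional Y hv 1 (ψ'.comp P) (by
    intro w hw
    rw [LinearMap.comp_apply, hP _ (hom_D Y hw), one_mul]
    have h3 : p ⟨w ᵥ* Y.D, hom_D Y hw⟩ = w ᵥ* Y.D := by
      have h4 : (fk Y (q - 1)).rangeRestrict ⟨w ᵥ* Y.D, hom_D Y hw⟩ = 0 := by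
        apply Subtype.ext
        change (w ᵥ* Y.D) ᵥ* Y.D = 0
        rw [vecMul_vecMul, Y.hD, vecMul_zero]
      change (w ᵥ* Y.D) - (s ((fk Y (q - 1)).rangeRestrict ⟨w ᵥ* Y.D, hom_D Y hw⟩) : Y.ι → R) = _
      rw [h4, map_zero]
      exact sub_zero _
    have h5 : LinearMap.codRestrict _ p hp ⟨w ᵥ* Y.D, hom_D Y hw⟩ =
        ⟨fk Y q ⟨w, hw⟩, ⟨⟨w, hw⟩, rfl⟩⟩ := Subtype.ext h3
    change ψ (LinearMap.codRestrict _ p hp ⟨w ᵥ* Y.D, hom_D Y hw⟩) = _
    rw [h5]
    exact hψ ⟨w, hw⟩ _)
  rw [star_one, one_smul] at hu2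
  exact ⟨u, hu, hu2⟩

/-- `Ext^1` is a torsion module -/
theorem ext_one_torsion (h1 : ∀ k, 0 < k → Y.Ex k) {v : Y.ι → R} (hv : v ∈ Zc Y 1) :
    ∃ r : R, r ≠ 0 ∧ r • v ∈ Bc Y 1 := by
  obtain ⟨hv, hv0⟩ := hv
  obtain ⟨ψ, hψ⟩ := exists_psi Y h1 (by omega : (0 : ℤ) < 1) hv0
  obtain ⟨r, Ψ, hr, hΨ⟩ := extend_functional _ ψ
  obtain ⟨u, hu, hu2⟩ := of_functional Y hv r Ψ (by
    intro w hw
    have h2 := hΨ ⟨fk Y 1 ⟨w, hw⟩, ⟨⟨w, hw⟩, rfl⟩⟩
    have h3 := hψ ⟨w, hw⟩ ⟨⟨w, hw⟩, rfl⟩
    exact h2.trans (congrArg (fun z => r * z) h3))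
  exact ⟨star r, fun h0 => hr (star_eq_zero.1 h0), u, hu, hu2⟩

theorem aus_one (h1 : ∀ k, 0 < k → Y.Ex k) (K : Submodule R (Y.ι → R)) (hK : K.FG)
    (hKZ : K ≤ Zc Y 1) : Gr R 1 (K ⧸ (Bc Y 1).submoduleOf K) := by
  have hfin : Module.Finite R K := Module.Finite.iff_fg.2 hK
  have htor : Module.IsTorsion R (K ⧸ (Bc Y 1).submoduleOf K) := by
    intro x
    obtain ⟨y, rfl⟩ := Submodule.Quotient.mk_surjective _ x
    obtain ⟨r, hr, hr2⟩ := ext_one_torsion Y h1 (hKZ y.2)
    refine ⟨⟨r, mem_nonZeroDivisors_of_ne_zero hr⟩, ?_⟩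
    change r • (Submodule.Quotient.mk y : K ⧸ (Bc Y 1).submoduleOf K) = 0
    rw [← Submodule.Quotient.mk_smul, Submodule.Quotient.mk_eq_zero]
    exact hr2
  obtain ⟨r, hr1, hr2⟩ := Submodule.annihilator_top_inter_nonZeroDivisors htor
  exact gr_one_of_torsion r (nonZeroDivisors.ne_zero hr2) fun x =>
    Submodule.mem_annihilator.1 hr1 x Submodule.mem_top

end ext

/-- principal ideal domains satisfy the conditions with `d = 1` -/
theorem aus_pid [StarRing R] : Aus R 1 where
  noeth := inferInstance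
  res K _ _ _ := by
    obtain ⟨m, n, B, g, h⟩ := exists_pres (R := R) K
    refine ⟨two m n B, Sum.elim 0 g, two_isRes h, ?_⟩
    rintro (a | a)
    · exact le_refl _
    · exact zero_le_one
  aus Y h0 h1 q hq := by
    intro K hK hKZ
    rcases Nat.eq_or_lt_of_le hq with hq1 | hq2
    · subst hq1
      exact aus_one Y h1 K hK hKZ
    · have h2 := zc_le_bc Y h1 (q := (q : ℤ)) (by omega)
      have hs : Subsingleton (K ⧸ (Bc Y (q : ℤ)).submoduleOf K) := by
        have h3 : (Bc Y (q : ℤ)).submoduleOf K = ⊤ := by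
          rw [eq_top_iff]
          intro x _
          exact h2 (hKZ x.2)
        exact Submodule.Quotient.subsingleton_iff.2 h3
      exact gr_of_subsingleton q

end pid

end Pool.Agent.H5.UR
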