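import Pool.Agent.H5.UR.LauGR
import Pool.Agent.H5.UR.Pid

/-!
# The group ring of a poly-infinite-cyclic group satisfies (g1), (g2), (g3)

The induction over the structure of the group, from the step theorem for skew Laurent extensions.
MP_c13a79_gt, Theorem U, block (4).
-/

set_option autoImplicit false

open Pool.Agent.H17.LTh Pool.Agent.H16.UN Pool.Agent.H19.UR

namespace Pool.Agent.H5.UR

/-- the group ring of the trivial group -/
noncomputable def trivEquiv (G : Type) [Group G] [Subsingleton G] (w : G →* ℤˣ) :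
    GR ℤ G w ≃+* ℤ :=
  (MonoidAlgebra.uniqueRingEquiv G : MonoidAlgebra ℤ G ≃+* ℤ)

theorem aus_triv (G : Type) [Group G] [Subsingleton G] (w : G →* ℤˣ) : Aus (GR ℤ G w) 1 := by
  let e := trivEquiv G w
  let cr : CommRing (GR ℤ G w) :=
    { (inferInstance : Ring (GR ℤ G w)) with
      mul_comm := fun x y => e.injective (by rw [map_mul, map_mul, mul_comm]) }
  have hd : @IsDomain (GR ℤ G w) cr.toSemiring := e.toMulEquiv.isDomain ℤ
  have hp : @IsPrincipalIdealRing (GR ℤ G w) cr.toSemiring :=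
    IsPrincipalIdealRing.of_surjective (e.symm : ℤ →+* GR ℤ G w) e.symm.surjective
  exact @aus_pid (GR ℤ G w) cr hd hp _

theorem aus_polyZ_of (step : ∀ (R S : Type) [Ring R] [StarRing R] [Ring S] [StarRing S]
      [Module R S], Lau R S → ∀ d : ℤ, Aus R d → Aus S (d + 1))
    (C : Type) [Group C] (hC : PolyZ C) : ∀ w : C →* ℤˣ, ∃ d, Aus (GR ℤ C w) d := by
  induction hC with
  | triv G => exact fun w => ⟨1, aus_triv G w⟩
  | ext G N e hN ih =>
    intro w
    obtain ⟨d, hd⟩ := ih (w.comp N.subtype)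
    obtain ⟨c, hc⟩ := QuotientGroup.mk_surjective (e.symm (Multiplicative.ofAdd 1))
    let sk := skewGR ℤ w e c (by rw [hc, e.apply_symm_apply])
    let mo : Module (GR ℤ N (w.comp N.subtype)) (GR ℤ G w) := Module.compHom _ sk.i
    exact ⟨d + 1, @step _ _ _ _ _ _ mo (@Skew.lau _ _ _ _ _ _ sk mo fun r s => rfl) d hd⟩

end Pool.Agent.H5.UR
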