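import Pool.Agent.H17.L0.Defs
import Pool.Agent.H16.UN.Good

/-!
# Skew Laurent extensions of rings with involution (MP_c13a79_gt, Theorem U, block (4))

`Skew R S`: the ring with involution `S` is the skew Laurent ring `R[t, t⁻¹; σ]`.  The elements of
`S` are uniquely the finite sums `∑ i(r_n) tⁿ`, with `t i(r) = i(σ r) t`, `star (i r) = i (star r)`,
`star t = e t⁻¹`, `e = ±1`.

`skewGR`: the group ring of a group `C` with a normal subgroup `N` with infinite cyclic quotient is
a skew Laurent extension of the group ring of `N`, for every orientation character.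
-/

set_option autoImplicit false

open Pool.Agent.H17.LTh Pool.Agent.H16.UN

universe u

namespace Pool.Agent.H5.UR

/-- `S` is the skew Laurent ring `R[t, t⁻¹; σ]`, with compatible involutions -/
structure Skew (R S : Type u) [Ring R] [StarRing R] [Ring S] [StarRing S] where
  /-- the inclusion of the coefficients -/
  i : R →+* S
  /-- the variable -/
  t : Sˣ
  /-- the automorphism -/
  σ : R ≃+* R
  /-- the sign -/
  e : ℤˣ
  star_i : ∀ r, star (i r) = i (star r)
  comm : ∀ r, (t : S) * i r = i (σ r) * (t : S)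
  star_t : star (t : S) = (e : ℤ) • ((t⁻¹ : Sˣ) : S)
  /-- the coefficients -/
  co : S ≃+ (ℤ →₀ R)
  co_symm : ∀ f : ℤ →₀ R, co.symm f = f.sum fun n r => i r * ((t ^ n : Sˣ) : S)

section basic

variable {R S : Type u} [Ring R] [StarRing R] [Ring S] [StarRing S] (h : Skew R S)

include h

theorem Skew.co_mono (n : ℤ) (r : R) :
    h.co (h.i r * ((h.t ^ n : Sˣ) : S)) = Finsupp.single n r := by
  have h1 : h.co.symm (Finsupp.single n r) = h.i r * ((h.t ^ n : Sˣ) : S) := by
    rw [h.co_symm, Finsupp.sum_single_index]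
    rw [map_zero, zero_mul]
  rw [← h1, AddEquiv.apply_symm_apply]

theorem Skew.eq_sum (x : S) : x = (h.co x).sum fun n r => h.i r * ((h.t ^ n : Sˣ) : S) := by
  rw [← h.co_symm, AddEquiv.symm_apply_apply]

/-- induction: `0`, monomials, sums -/
theorem Skew.ind {p : S → Prop} (x : S) (h0 : p 0) (hm : ∀ (n : ℤ) (r : R), p (h.i r * ((h.t ^ n : Sˣ) : S)))
    (ha : ∀ x y, p x → p y → p (x + y)) : p x := by
  rw [h.eq_sum x]
  change p (∑ n ∈ (h.co x).support, h.i (h.co x n) * ((h.t ^ n : Sˣ) : S))
  exact Finset.sum_induction _ p ha h0 fun n _ => hm n _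

theorem Skew.i_inj : Function.Injective h.i := by
  intro r s hrs
  have h1 := h.co_mono 0 r
  have h2 := h.co_mono 0 s
  rw [hrs, h2] at h1
  exact (Finsupp.single_injective 0 h1).symm

/-- `tⁿ i(r) = i(σⁿ r) tⁿ` -/
theorem Skew.comm_zpow (n : ℤ) (r : R) :
    ((h.t ^ n : Sˣ) : S) * h.i r = h.i ((h.σ ^ n) r) * ((h.t ^ n : Sˣ) : S) := by
  have hp : ∀ (m : ℕ) (r : R),
      ((h.t ^ (m : ℤ) : Sˣ) : S) * h.i r = h.i ((h.σ ^ (m : ℤ)) r) * ((h.t ^ (m : ℤ) : Sˣ) : S) := by
    intro m
    induction m with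
    | zero => intro r; simp
    | succ m ih =>
      intro r
      have e1 : (h.t ^ ((m + 1 : ℕ) : ℤ) : Sˣ) = h.t ^ (m : ℤ) * h.t := by
        push_cast; rw [zpow_add, zpow_one]
      have e2 : (h.σ ^ ((m + 1 : ℕ) : ℤ)) r = (h.σ ^ (m : ℤ)) (h.σ r) := by
        push_cast; rw [zpow_add, zpow_one]; rfl
      rw [e1, e2, Units.val_mul, mul_assoc, h.comm, ← mul_assoc, ih, mul_assoc]
  rcases n.eq_nat_or_neg with ⟨m, rfl | rfl⟩
  · exact hp m r
  · have h1 := hp m ((h.σ ^ (-(m : ℤ))) r)
    have e2 : (h.σ ^ (m : ℤ)) ((h.σ ^ (-(m : ℤ))) r) = r := by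
      change ((h.σ ^ (m : ℤ)) * (h.σ ^ (-(m : ℤ)))) r = r
      rw [← zpow_add, add_neg_cancel, zpow_zero]; rfl
    rw [e2] at h1
    have e3 : ((h.t ^ (-(m : ℤ)) : Sˣ) : S) * ((h.t ^ (m : ℤ) : Sˣ) : S) = 1 := by
      rw [← Units.val_mul, ← zpow_add, neg_add_cancel, zpow_zero, Units.val_one]
    have e4 : ((h.t ^ (m : ℤ) : Sˣ) : S) * ((h.t ^ (-(m : ℤ)) : Sˣ) : S) = 1 := by
      rw [← Units.val_mul, ← zpow_add, add_neg_cancel, zpow_zero, Units.val_one]
    calc ((h.t ^ (-(m : ℤ)) : Sˣ) : S) * h.i r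
        = ((h.t ^ (-(m : ℤ)) : Sˣ) : S) * (h.i r * ((h.t ^ (m : ℤ) : Sˣ) : S)) *
          ((h.t ^ (-(m : ℤ)) : Sˣ) : S) := by
          rw [mul_assoc, mul_assoc, e4, mul_one]
      _ = (((h.t ^ (-(m : ℤ)) : Sˣ) : S) * ((h.t ^ (m : ℤ) : Sˣ) : S)) *
          h.i ((h.σ ^ (-(m : ℤ))) r) * ((h.t ^ (-(m : ℤ)) : Sˣ) : S) := by
          rw [← h1]; simp only [mul_assoc]
      _ = _ := by rw [e3, one_mul]

theorem Skew.star_t_inv : star ((h.t⁻¹ : Sˣ) : S) = (h.e : ℤ) • (h.t : S) := by
  have h1 : star ((h.t⁻¹ : Sˣ) : S) * star (h.t : S) = 1 := by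
    rw [← star_mul, Units.mul_inv, star_one]
  rw [h.star_t] at h1
  have h2 : star ((h.t⁻¹ : Sˣ) : S) =
      (h.e : ℤ) • ((star ((h.t⁻¹ : Sˣ) : S) * ((h.e : ℤ) • ((h.t⁻¹ : Sˣ) : S))) * (h.t : S)) := by
    rw [mul_smul_comm, smul_mul_assoc, smul_smul, eps_eps, one_smul, mul_assoc, Units.inv_mul,
      mul_one]
  rw [h2, h1, one_mul]

/-- the automorphism commutes with the involution -/
theorem Skew.σ_star (r : R) : h.σ (star r) = star (h.σ r) := by
  apply h.i_inj
  have h1 : h.i (h.σ (star r)) = (h.t : S) * h.i (star r) * ((h.t⁻¹ : Sˣ) : S) := by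
    rw [h.comm, mul_assoc, Units.mul_inv, mul_one]
  have h2 : h.i (h.σ r) = (h.t : S) * h.i r * ((h.t⁻¹ : Sˣ) : S) := by
    rw [h.comm, mul_assoc, Units.mul_inv, mul_one]
  rw [h1, ← h.star_i, ← h.star_i, h2, star_mul, star_mul, h.star_t, h.star_t_inv,
    smul_mul_assoc, mul_smul_comm, mul_smul_comm, smul_smul, eps_eps, one_smul, mul_assoc]

end basic

section gr

variable (k : Type) [CommRing k] {C : Type} [Group C] (N : Subgroup C) [N.Normal] (w : C →* ℤˣ)

/-- the inclusion of group rings -/
noncomputable def iGR : GR k N (w.comp N.subtype) →+* GR k C w :=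
  MonoidAlgebra.mapDomainRingHom k N.subtype

omit [N.Normal] in
theorem iGR_single (g : N) (r : k) :
    iGR k N w (GR.single g r) = GR.single (g : C) r :=
  MonoidAlgebra.mapDomain_single

theorem star_single {π : Type} [Group π] {v : π →* ℤˣ} (g : π) (r : k) :
    star (GR.single g r : GR k π v) = GR.single g⁻¹ (((v g : ℤˣ) : ℤ) • r) :=
  GR.starAdd_single g r

omit [N.Normal] in
theorem iGR_star (x : GR k N (w.comp N.subtype)) : star (iGR k N w x) = iGR k N w (star x) := by
  induction x using GR.induction with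
  | zero => rw [star_zero, map_zero, star_zero]
  | single g r =>
    rw [iGR_single, star_single, star_single, iGR_single]
    rfl
  | add x y hx hy => rw [map_add, star_add, star_add, map_add, hx, hy]

/-- the automorphism of the group ring of `N` given by the conjugation with `c` -/
noncomputable def σGR (c : C) :
    GR k N (w.comp N.subtype) ≃+* GR k N (w.comp N.subtype) :=
  MonoidAlgebra.mapDomainRingEquiv k (MulAut.conjNormal c)

theorem σGR_single (c : C) (g : N) (r : k) :
    σGR k N w c (GR.single g r) = GR.single (MulAut.conjNormal c g) r :=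
  MonoidAlgebra.mapDomainRingEquiv_single _ _ _

/-- the unit `c` of the group ring -/
noncomputable def tGR {π : Type} [Group π] (v : π →* ℤˣ) (c : π) : (GR k π v)ˣ where
  val := GR.single c 1
  inv := GR.single c⁻¹ 1
  val_inv := by rw [GR.single_mul_single, mul_inv_cancel, one_mul, GR.one_def]
  inv_val := by rw [GR.single_mul_single, inv_mul_cancel, one_mul, GR.one_def]

theorem tGR_zpow {π : Type} [Group π] (v : π →* ℤˣ) (c : π) (n : ℤ) :
    (((tGR k v c) ^ n : (GR k π v)ˣ) : GR k π v) = GR.single (c ^ n) 1 := by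
  have h1 : ∀ c d : π, tGR k v (c * d) = tGR k v c * tGR k v d := by
    intro c d
    apply Units.ext
    rw [Units.val_mul]
    change GR.single (c * d) 1 = GR.single c 1 * GR.single d 1
    rw [GR.single_mul_single, one_mul]
  have h2 : tGR k v 1 = 1 := Units.ext (GR.one_def (R := k) (w := v)).symm
  let f : π →* (GR k π v)ˣ := ⟨⟨tGR k v, h2⟩, h1⟩
  have h3 : f (c ^ n) = f c ^ n := map_zpow f c n
  change ((f c ^ n : (GR k π v)ˣ) : GR k π v) = _
  rw [← h3]
  rfl

variable {N}

/-- the bijection `C ≃ ℤ × N`, `x cⁿ ↔ (n, x)` -/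
noncomputable def eqv (e : C ⧸ N ≃* Multiplicative ℤ) (c : C)
    (hc : e (QuotientGroup.mk c) = Multiplicative.ofAdd 1) : C ≃ ℤ × N where
  toFun g := (Multiplicative.toAdd (e (QuotientGroup.mk g)),
    ⟨g * (c ^ Multiplicative.toAdd (e (QuotientGroup.mk g)))⁻¹, by
      have h1 : ∀ n : ℤ, e (QuotientGroup.mk (c ^ n)) = Multiplicative.ofAdd n := by
        intro n
        rw [QuotientGroup.mk_zpow, map_zpow, hc, ← ofAdd_zsmul]
        simp
      have h2 : e (QuotientGroup.mk (g * (c ^ Multiplicative.toAdd (e (QuotientGroup.mk g)))⁻¹)) =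
          1 := by
        rw [QuotientGroup.mk_mul, QuotientGroup.mk_inv, map_mul, map_inv, h1, ofAdd_toAdd,
          mul_inv_cancel]
      rw [← QuotientGroup.eq_one_iff]
      exact e.injective (h2.trans (map_one e).symm)⟩)
  invFun p := (p.2 : C) * c ^ p.1
  left_inv g := by simp
  right_inv p := by
    obtain ⟨n, x⟩ := p
    have h1 : ∀ n : ℤ, e (QuotientGroup.mk (c ^ n)) = Multiplicative.ofAdd n := by
      intro n
      rw [QuotientGroup.mk_zpow, map_zpow, hc, ← ofAdd_zsmul]
      simp
    have h2 : Multiplicative.toAdd (e (QuotientGroup.mk ((x : C) * c ^ n))) = n := by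
      rw [QuotientGroup.mk_mul, (QuotientGroup.eq_one_iff (x : C)).2 x.2, one_mul, h1, toAdd_ofAdd]
    apply Prod.ext
    · exact h2
    · apply Subtype.ext
      change (x : C) * c ^ n * (c ^ Multiplicative.toAdd
        (e (QuotientGroup.mk ((x : C) * c ^ n))))⁻¹ = (x : C)
      rw [h2, mul_inv_cancel_right]

/-- the coefficients of an element of the group ring of `C` -/
noncomputable def coGR (e : C ⧸ N ≃* Multiplicative ℤ) (c : C)
    (hc : e (QuotientGroup.mk c) = Multiplicative.ofAdd 1) :
    GR k C w ≃+ (ℤ →₀ GR k N (w.comp N.subtype)) :=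
  (MonoidAlgebra.coeffAddEquiv (R := k) (M := C)).trans <|
    (Finsupp.domCongr (eqv e c hc)).trans <|
      Finsupp.curryAddEquiv.trans <|
        Finsupp.mapRange.addEquiv (MonoidAlgebra.coeffAddEquiv (R := k) (M := N)).symm

/-- the group ring of `C` is a skew Laurent extension of the group ring of `N` -/
noncomputable def skewGR (e : C ⧸ N ≃* Multiplicative ℤ) (c : C)
    (hc : e (QuotientGroup.mk c) = Multiplicative.ofAdd 1) :
    Skew (GR k N (w.comp N.subtype)) (GR k C w) where
  i := iGR k N w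
  t := tGR k w c
  σ := σGR k N w c
  e := w c
  star_i := iGR_star k N w
  comm x := by
    induction x using GR.induction with
    | zero => simp
    | single g r =>
      rw [iGR_single, σGR_single, iGR_single]
      change GR.single c 1 * GR.single (g : C) r = GR.single _ r * GR.single c 1
      rw [GR.single_mul_single, GR.single_mul_single, one_mul, mul_one, MulAut.conjNormal_apply]
      congr 1
      group
    | add x y hx hy => rw [map_add, mul_add, map_add, map_add, add_mul, hx, hy]
  star_t := by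
    change star (GR.single c 1) = ((w c : ℤˣ) : ℤ) • GR.single c⁻¹ 1
    rw [star_single]
    apply GR.ext
    intro g
    classical
    change _ = (((w c : ℤˣ) : ℤ) • (Finsupp.single c⁻¹ (1 : k))) g
    rw [GR.co_single, Finsupp.smul_apply, Finsupp.single_apply]
    split_ifs <;> simp
  co := coGR k w e c hc
  co_symm f := by
    induction f using Finsupp.induction_linear with
    | zero => simp
    | add f g hf hg =>
      rw [map_add, hf, hg, Finsupp.sum_add_index']
      · intro n; rw [map_zero, zero_mul]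
      · intro n r s; rw [map_add, add_mul]
    | single n x =>
      rw [Finsupp.sum_single_index (by rw [map_zero, zero_mul]), AddEquiv.symm_apply_eq]
      induction x using GR.induction with
      | zero => simp
      | add x y hx hy => rw [Finsupp.single_add, hx, hy, ← map_add, ← add_mul, ← map_add]
      | single g r =>
        rw [iGR_single, tGR_zpow, GR.single_mul_single, mul_one]
        have h1 : eqv e c hc ((g : C) * c ^ n) = (n, g) := (eqv e c hc).apply_symm_apply (n, g)
        change _ = Finsupp.mapRange.addEquiv (MonoidAlgebra.coeffAddEquiv (R := k) (M := N)).symm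
          (Finsupp.curryAddEquiv (Finsupp.domCongr (eqv e c hc)
            (Finsupp.single ((g : C) * c ^ n) r)))
        rw [Finsupp.domCongr_apply, Finsupp.equivMapDomain_single, h1,
          Finsupp.coe_curryAddEquiv, Finsupp.curry_single]
        simp only [Finsupp.mapRange.addEquiv_apply, Finsupp.mapRange_single]
        rfl

end gr

end Pool.Agent.H5.UR
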